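import Mathlib
import Pool.Agent.Y734.I.StmsH
import Pool.Agent.Y734.I.QAlg

/-!
# Project Y734/I, job TRI (helper93): linear algebra of symmetric products
-/

set_option autoImplicit false

namespace Pool.Agent.Y734.I.TRI

open Pool.Agent.Y734.I
open MvPolynomial

section field
variable {k : Type} [Field k]

/-- scalar product -/
def dk (a b : Fin 3 → k) : k := a 0 * b 0 + a 1 * b 1 + a 2 * b 2

/-- cross product -/
def ck (a b : Fin 3 → k) : Fin 3 → k :=
  ![a 1 * b 2 - a 2 * b 1, a 2 * b 0 - a 0 * b 2, a 0 * b 1 - a 1 * b 0]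

lemma ck0 (a b : Fin 3 → k) : ck a b 0 = a 1 * b 2 - a 2 * b 1 := rfl
lemma ck1 (a b : Fin 3 → k) : ck a b 1 = a 2 * b 0 - a 0 * b 2 := rfl
lemma ck2 (a b : Fin 3 → k) : ck a b 2 = a 0 * b 1 - a 1 * b 0 := rfl

/-- a vector orthogonal to two independent vectors -/
lemma par {u v p : Fin 3 → k} (hw : ck u v ≠ 0) (h1 : dk u p = 0) (h2 : dk v p = 0) :
    ∃ c : k, p = c • ck u v := by
  have e : ∀ i j, p i * ck u v j = p j * ck u v i := by
    unfold dk at h1 h2
    intro i j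
    fin_cases i <;> fin_cases j <;>
      simp only [Fin.zero_eta, Fin.mk_one, Fin.reduceFinMk, Fin.isValue, ck0, ck1, ck2] <;>
      first
        | ring1
        | linear_combination (u 2) * h2 - (v 2) * h1
        | linear_combination -(u 2) * h2 + (v 2) * h1
        | linear_combination (u 1) * h2 - (v 1) * h1
        | linear_combination -(u 1) * h2 + (v 1) * h1
        | linear_combination (u 0) * h2 - (v 0) * h1
        | linear_combination -(u 0) * h2 + (v 0) * h1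
  obtain ⟨j, hj⟩ := Function.ne_iff.1 hw
  refine ⟨p j / ck u v j, ?_⟩
  funext i
  have hj' : ck u v j ≠ 0 := hj
  rw [Pi.smul_apply, smul_eq_mul, div_mul_eq_mul_div, eq_div_iff hj']
  exact e i j

lemma ck_ne {a b c : Fin 3 → k} (h : dk a (ck b c) ≠ 0) : ck b c ≠ 0 := by
  intro h0
  apply h
  rw [h0]
  simp [dk]

/-- three independent forms have no common zero -/
lemma zero_of {a b c p : Fin 3 → k} (h : dk a (ck b c) ≠ 0) (ha : dk a p = 0) (hb : dk b p = 0)
    (hc : dk c p = 0) : p = 0 := by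
  obtain ⟨t, ht⟩ := par (ck_ne h) hb hc
  rw [ht] at ha
  have h1 : t * dk a (ck b c) = 0 := by
    rw [← ha]
    simp [dk, smul_eq_mul]
    ring
  rw [ht, (mul_eq_zero.1 h1).resolve_right h, zero_smul]

end field

/-- the complex vector of a rational vector -/
def cx (a : Fin 3 → ℚ) : Fin 3 → ℂ := fun i => (a i : ℂ)

lemma cx_dk (a b : Fin 3 → ℚ) : dk (cx a) (cx b) = ((dt3 a b : ℚ) : ℂ) := by
  simp [dk, cx, dt3]

lemma cx_ck (a b : Fin 3 → ℚ) : ck (cx a) (cx b) = cx (crs a b) := by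
  funext i
  fin_cases i <;> simp [ck, cx, crs]

lemma cx_ne {a : Fin 3 → ℚ} (h : a ≠ 0) : cx a ≠ 0 := by
  intro h0
  apply h
  funext i
  have := congrFun h0 i
  simpa [cx] using this

lemma ev_eq (l : Fin 3 → ℚ) (x : Fin 3 → ℂ) : ev (N := 2) l x = dk (cx l) x := by
  simp [ev, dk, cx, Fin.sum_univ_three]

/-- the bilinear form of a matrix -/
def bl (u v : Fin 3 → ℚ) (M : Matrix (Fin 3) (Fin 3) ℚ) : ℚ := ∑ j, ∑ l, u j * M j l * v l

lemma qv_bl (u : Fin 3 → ℚ) (M : Matrix (Fin 3) (Fin 3) ℚ) : qv u M = bl u u M := rfl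

/-- the symmetric product -/
def Sy (M : Matrix (Fin 3) (Fin 3) ℚ) (c : ℚ) (u v : Fin 3 → ℚ) : Prop :=
  ∀ j l, M j l = c * (u j * v l + v j * u l)

lemma bl_Sy {M : Matrix (Fin 3) (Fin 3) ℚ} {c : ℚ} {u v : Fin 3 → ℚ} (h : Sy M c u v)
    (a b : Fin 3 → ℚ) : bl a b M = c * (dt3 a u * dt3 b v + dt3 a v * dt3 b u) := by
  unfold bl
  simp only [Fin.sum_univ_three, h _ _, dt3]
  ring

lemma bl_symm {M : Matrix (Fin 3) (Fin 3) ℚ} (hs : M.IsSymm) (a b : Fin 3 → ℚ) :
    bl a b M = bl b a M := by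
  unfold bl
  simp only [Fin.sum_univ_three]
  have h1 := hs.apply 0 1
  have h2 := hs.apply 0 2
  have h3 := hs.apply 1 2
  rw [h1, h2, h3]
  ring

lemma rat {M : Matrix (Fin 3) (Fin 3) ℚ} {e V V' : Fin 3 → ℚ} {t : ℂ}
    (h : ∀ j l, (M j l : ℂ) = t * (cx V j * cx V' l + cx V' j * cx V l)) (he : qv e M ≠ 0) :
    ∃ c : ℚ, c ≠ 0 ∧ Sy M c V V' := by
  have h1 : ((qv e M : ℚ) : ℂ) = 2 * t * ((dt3 e V : ℚ) : ℂ) * ((dt3 e V' : ℚ) : ℂ) := by
    unfold qv dt3
    simp only [Fin.sum_univ_three]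
    push_cast
    simp only [h _ _, cx]
    ring
  have hne : ((qv e M : ℚ) : ℂ) ≠ 0 := by exact_mod_cast he
  have hV : ((dt3 e V : ℚ) : ℂ) ≠ 0 := by
    intro h0
    apply hne
    rw [h1, h0]
    ring
  have hV' : ((dt3 e V' : ℚ) : ℂ) ≠ 0 := by
    intro h0
    apply hne
    rw [h1, h0]
    ring
  have ht : t = ((qv e M / (2 * dt3 e V * dt3 e V') : ℚ) : ℂ) := by
    push_cast
    rw [h1]
    field_simp
  have hVq : dt3 e V ≠ 0 := by exact_mod_cast hV
  have hVq' : dt3 e V' ≠ 0 := by exact_mod_cast hV'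
  refine ⟨qv e M / (2 * dt3 e V * dt3 e V'), by positivity, fun j l => ?_⟩
  have h2 := h j l
  rw [ht] at h2
  simp only [cx] at h2
  exact_mod_cast h2

/-- a singular form which vanishes at four lines in general position -/
lemma pairing (hfac : FacStmt) {M : Matrix (Fin 3) (Fin 3) ℚ} (hs : M.IsSymm) (hd : M.det = 0)
    {e a b c d : Fin 3 → ℚ} (habc : dt3 a (crs b c) ≠ 0) (habd : dt3 a (crs b d) ≠ 0)
    (hacd : dt3 a (crs c d) ≠ 0) (hbcd : dt3 b (crs c d) ≠ 0) (ha : qv a M = 0) (hb : qv b M = 0)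
    (hc : qv c M = 0) (hd' : qv d M = 0) (he : qv e M ≠ 0) :
    ∃ t : ℚ, t ≠ 0 ∧ (Sy M t (crs a b) (crs c d) ∨ Sy M t (crs a c) (crs b d) ∨
      Sy M t (crs a d) (crs b c)) := by
  obtain ⟨p, q, hpq⟩ := hfac (M.map (fun x : ℚ => (x : ℂ))) (by
    ext i j
    simp only [Matrix.transpose_apply, Matrix.map_apply]
    rw [hs.apply i j]) (by
    have h1 := (RingHom.map_det (algebraMap ℚ ℂ) M).symm
    rw [hd, map_zero] at h1
    exact h1)
  have hM : ∀ j l, (M j l : ℂ) = p j * q l + q j * p l := hpq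
  have hq : ∀ h : Fin 3 → ℚ, ((qv h M : ℚ) : ℂ) = 2 * (dk (cx h) p * dk (cx h) q) := by
    intro h
    unfold qv dk
    simp only [Fin.sum_univ_three]
    push_cast
    simp only [hM, cx]
    ring
  have hz : ∀ h : Fin 3 → ℚ, qv h M = 0 → dk (cx h) p = 0 ∨ dk (cx h) q = 0 := by
    intro h h0
    have h1 := hq h
    rw [h0] at h1
    have h2 : dk (cx h) p * dk (cx h) q = 0 := by
      have : (2 : ℂ) * (dk (cx h) p * dk (cx h) q) = 0 := by rw [← h1]; simp
      exact (mul_eq_zero.1 this).resolve_left (by norm_num)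
    exact mul_eq_zero.1 h2
  have hp0 : p ≠ 0 := by
    intro h0
    apply he
    have h1 := hq e
    rw [h0] at h1
    have : ((qv e M : ℚ) : ℂ) = 0 := by rw [h1]; simp [dk]
    exact_mod_cast this
  have hq0 : q ≠ 0 := by
    intro h0
    apply he
    have h1 := hq e
    rw [h0] at h1
    have : ((qv e M : ℚ) : ℂ) = 0 := by rw [h1]; simp [dk]
    exact_mod_cast this
  have cne : ∀ {x y z : Fin 3 → ℚ}, dt3 x (crs y z) ≠ 0 → dk (cx x) (ck (cx y) (cx z)) ≠ 0 := by
    intro x y z h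
    rw [cx_ck, cx_dk]
    exact_mod_cast h
  have h3 : ∀ {x y z : Fin 3 → ℚ}, dt3 x (crs y z) ≠ 0 → ∀ r : Fin 3 → ℂ, r ≠ 0 → dk (cx x) r = 0 →
      dk (cx y) r = 0 → dk (cx z) r = 0 → False := by
    intro x y z h r hr h1 h2 h3
    exact hr (zero_of (cne h) h1 h2 h3)
  -- the symmetric product of two multiples
  have fin : ∀ {x y z w : Fin 3 → ℚ}, crs x y ≠ 0 → crs z w ≠ 0 → dk (cx x) p = 0 → dk (cx y) p = 0 →
      dk (cx z) q = 0 → dk (cx w) q = 0 → ∃ t : ℚ, t ≠ 0 ∧ Sy M t (crs x y) (crs z w) := by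
    intro x y z w h1 h2 hx hy hz' hw
    obtain ⟨s, hs'⟩ := par (u := cx x) (v := cx y) (by rw [cx_ck]; exact cx_ne h1) hx hy
    obtain ⟨s', hs2⟩ := par (u := cx z) (v := cx w) (by rw [cx_ck]; exact cx_ne h2) hz' hw
    rw [cx_ck] at hs' hs2
    refine rat (t := s * s') (fun j l => ?_) he
    rw [hM, hs', hs2]
    simp only [Pi.smul_apply, smul_eq_mul]
    ring
  have sw : ∀ {t : ℚ} {u v : Fin 3 → ℚ}, Sy M t u v → Sy M t v u := by
    intro t u v h j l
    rw [h j l]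
    ring
  have nab : crs a b ≠ 0 := by
    intro h0
    apply habc
    have : dt3 a (crs b c) = dt3 c (crs a b) := by simp [dt3, crs]; ring
    rw [this, h0]; simp [dt3]
  have nac : crs a c ≠ 0 := by
    intro h0
    apply habc
    have : dt3 a (crs b c) = - dt3 b (crs a c) := by simp [dt3, crs]; ring
    rw [this, h0]; simp [dt3]
  have nad : crs a d ≠ 0 := by
    intro h0
    apply habd
    have : dt3 a (crs b d) = - dt3 b (crs a d) := by simp [dt3, crs]; ring
    rw [this, h0]; simp [dt3]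
  have nbc : crs b c ≠ 0 := by
    intro h0
    apply habc
    rw [h0]; simp [dt3]
  have nbd : crs b d ≠ 0 := by
    intro h0
    apply habd
    rw [h0]; simp [dt3]
  have ncd : crs c d ≠ 0 := by
    intro h0
    apply hacd
    rw [h0]; simp [dt3]
  rcases hz a ha with a1 | a1 <;> rcases hz b hb with b1 | b1 <;> rcases hz c hc with c1 | c1 <;>
    rcases hz d hd' with d1 | d1
  · exact absurd (h3 habc p hp0 a1 b1 c1) id
  · exact absurd (h3 habc p hp0 a1 b1 c1) id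
  · exact absurd (h3 habd p hp0 a1 b1 d1) id
  · obtain ⟨t, ht, h⟩ := fin nab ncd a1 b1 c1 d1
    exact ⟨t, ht, Or.inl h⟩
  · exact absurd (h3 hacd p hp0 a1 c1 d1) id
  · obtain ⟨t, ht, h⟩ := fin nac nbd a1 c1 b1 d1
    exact ⟨t, ht, Or.inr (Or.inl h)⟩
  · obtain ⟨t, ht, h⟩ := fin nad nbc a1 d1 b1 c1
    exact ⟨t, ht, Or.inr (Or.inr h)⟩
  · exact absurd (h3 hbcd q hq0 b1 c1 d1) id
  · exact absurd (h3 hbcd p hp0 b1 c1 d1) id
  · obtain ⟨t, ht, h⟩ := fin nbc nad b1 c1 a1 d1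
    exact ⟨t, ht, Or.inr (Or.inr (sw h))⟩
  · obtain ⟨t, ht, h⟩ := fin nbd nac b1 d1 a1 c1
    exact ⟨t, ht, Or.inr (Or.inl (sw h))⟩
  · exact absurd (h3 hacd q hq0 a1 c1 d1) id
  · obtain ⟨t, ht, h⟩ := fin ncd nab c1 d1 a1 b1
    exact ⟨t, ht, Or.inl (sw h)⟩
  · exact absurd (h3 habd q hq0 a1 b1 d1) id
  · exact absurd (h3 habc q hq0 a1 b1 c1) id
  · exact absurd (h3 habc q hq0 a1 b1 c1) id

/-- the expansion of a vector in a basis -/
lemma exp3 (u v w x : Fin 3 → ℚ) : dt3 u (crs v w) • x =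
    dt3 x (crs v w) • u + dt3 x (crs w u) • v + dt3 x (crs u v) • w := by
  funext i
  fin_cases i <;> simp [dt3, crs] <;> ring

lemma bl_add3 (a b c : ℚ) (u v w y : Fin 3 → ℚ) (M : Matrix (Fin 3) (Fin 3) ℚ) :
    bl (a • u + b • v + c • w) y M = a * bl u y M + b * bl v y M + c * bl w y M := by
  unfold bl
  simp only [Fin.sum_univ_three, Pi.add_apply, Pi.smul_apply, smul_eq_mul]
  ring

lemma bl_smul (a : ℚ) (u y : Fin 3 → ℚ) (M : Matrix (Fin 3) (Fin 3) ℚ) :
    bl (a • u) y M = a * bl u y M := by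
  unfold bl
  simp only [Fin.sum_univ_three, Pi.smul_apply, smul_eq_mul]
  ring

lemma bl_sub (u v y : Fin 3 → ℚ) (M : Matrix (Fin 3) (Fin 3) ℚ) (a b : ℚ) :
    bl (a • u - b • v) y M = a * bl u y M - b * bl v y M := by
  unfold bl
  simp only [Fin.sum_univ_three, Pi.sub_apply, Pi.smul_apply, smul_eq_mul]
  ring

/-- a symmetric matrix whose form vanishes on a basis is zero -/
lemma zero_basis {N : Matrix (Fin 3) (Fin 3) ℚ} (hs : N.IsSymm) {u v w : Fin 3 → ℚ}
    (hD : dt3 u (crs v w) ≠ 0) (huu : bl u u N = 0) (hvv : bl v v N = 0) (hww : bl w w N = 0)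
    (huv : bl u v N = 0) (huw : bl u w N = 0) (hvw : bl v w N = 0) : ∀ j l, N j l = 0 := by
  have h1 : ∀ x y : Fin 3 → ℚ, bl x y N = 0 := by
    have hb : ∀ y : Fin 3 → ℚ, bl u y N = 0 ∧ bl v y N = 0 ∧ bl w y N = 0 := by
      intro y
      have key : ∀ z : Fin 3 → ℚ, bl u z N = 0 → bl v z N = 0 → bl w z N = 0 → bl y z N = 0 := by
        intro z h1 h2 h3
        have h4 := bl_add3 (dt3 y (crs v w)) (dt3 y (crs w u)) (dt3 y (crs u v)) u v w z N
        rw [← exp3, bl_smul, h1, h2, h3] at h4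
        have h5 : dt3 u (crs v w) * bl y z N = 0 := by rw [h4]; ring
        exact (mul_eq_zero.1 h5).resolve_left hD
      have g1 := key u huu (by rw [bl_symm hs]; exact huv) (by rw [bl_symm hs]; exact huw)
      have g2 := key v huv hvv (by rw [bl_symm hs]; exact hvw)
      have g3 := key w huw hvw hww
      exact ⟨by rw [bl_symm hs]; exact g1, by rw [bl_symm hs]; exact g2, by rw [bl_symm hs]; exact g3⟩
    intro x y
    have h4 := bl_add3 (dt3 x (crs v w)) (dt3 x (crs w u)) (dt3 x (crs u v)) u v w y N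
    rw [← exp3, bl_smul, (hb y).1, (hb y).2.1, (hb y).2.2] at h4
    have h5 : dt3 u (crs v w) * bl x y N = 0 := by rw [h4]; ring
    exact (mul_eq_zero.1 h5).resolve_left hD
  intro j l
  have h2 := h1 (Pi.single j 1) (Pi.single l 1)
  have h3 : bl (Pi.single j 1) (Pi.single l 1) N = N j l := by
    unfold bl
    rw [Finset.sum_eq_single j, Finset.sum_eq_single l]
    · simp
    · intro b _ hb
      simp [Pi.single_eq_of_ne hb]
    · simp
    · intro b _ hb
      simp [Pi.single_eq_of_ne hb]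
    · simp
  rw [← h3, h2]

end Pool.Agent.Y734.I.TRI
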