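import Mathlib
import Pool.Agent.Y734.I.TRI.Alg

/-!
# Project Y734/I, job TRI (helper93): the coefficients of the determinant, three exponents
-/

set_option autoImplicit false

namespace Pool.Agent.Y734.I.TRI

open Pool.Agent.Y734.I
open MvPolynomial

lemma D3_self (A : Matrix (Fin 3) (Fin 3) ℚ) : D3 A A A = A.det := by
  unfold D3
  congr 1
  ext i j
  fin_cases i <;> rfl

/-- three exponents -/
lemma coef (hdet : DetStmt) (w : Fin 3 → ℤ) (M : ℤ → Matrix (Fin 3) (Fin 3) ℚ)
    (hw : Function.Injective w)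
    (h : ∀ z : ℚ, z ≠ 0 → (∑ x ∈ Finset.univ.image w, z ^ x • M x).det = 0) (e : ℤ) :
    ∑ i : Fin 3, ∑ j : Fin 3, ∑ l : Fin 3,
      (if w i + w j + w l = e then D3 (M (w i)) (M (w j)) (M (w l)) else 0) = 0 := by
  have h1 := hdet (Finset.univ.image w) M h e
  rw [Finset.sum_image (fun _ _ _ _ h => hw h)] at h1
  simp only [Finset.sum_image (fun _ _ _ _ h => hw h)] at h1
  exact h1

section
variable (hdet : DetStmt) {w1 w2 w3 : ℤ} {M : ℤ → Matrix (Fin 3) (Fin 3) ℚ}
  (h12 : w1 < w2) (h23 : w2 < w3)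
  (h : ∀ z : ℚ, z ≠ 0 → (∑ x ∈ Finset.univ.image ![w1, w2, w3], z ^ x • M x).det = 0)
include hdet h12 h23 h

lemma inj3 : Function.Injective ![w1, w2, w3] := by
  intro i j hij
  fin_cases i <;> fin_cases j <;> simp at hij ⊢ <;> omega

lemma coef3 (e : ℤ) :
    ∑ i : Fin 3, ∑ j : Fin 3, ∑ l : Fin 3,
      (if (![w1, w2, w3] i) + (![w1, w2, w3] j) + (![w1, w2, w3] l) = e then
        D3 (M (![w1, w2, w3] i)) (M (![w1, w2, w3] j)) (M (![w1, w2, w3] l)) else 0) = 0 :=
  coef hdet ![w1, w2, w3] M (inj3 hdet h12 h23 h) h e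

lemma det1 : (M w1).det = 0 := by
  have h1 := coef3 hdet h12 h23 h (3 * w1)
  simp only [Fin.sum_univ_three, Matrix.cons_val_zero, Matrix.cons_val_one, Matrix.cons_val] at h1
  simp (disch := omega) only [if_neg, if_pos, add_zero] at h1
  rw [← D3_self]
  exact h1

lemma det3 : (M w3).det = 0 := by
  have h1 := coef3 hdet h12 h23 h (3 * w3)
  simp only [Fin.sum_univ_three, Matrix.cons_val_zero, Matrix.cons_val_one, Matrix.cons_val] at h1
  simp (disch := omega) only [if_neg, if_pos, zero_add] at h1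
  rw [← D3_self]
  exact h1

lemma c112 : D3 (M w1) (M w1) (M w2) + D3 (M w1) (M w2) (M w1) + D3 (M w2) (M w1) (M w1) = 0 := by
  have h1 := coef3 hdet h12 h23 h (2 * w1 + w2)
  simp only [Fin.sum_univ_three, Matrix.cons_val_zero, Matrix.cons_val_one, Matrix.cons_val] at h1
  simp (disch := omega) only [if_neg, if_pos, zero_add, add_zero, if_true] at h1
  exact h1

lemma c332 : D3 (M w3) (M w3) (M w2) + D3 (M w3) (M w2) (M w3) + D3 (M w2) (M w3) (M w3) = 0 := by
  have h1 := coef3 hdet h12 h23 h (2 * w3 + w2)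
  simp only [Fin.sum_univ_three, Matrix.cons_val_zero, Matrix.cons_val_one, Matrix.cons_val] at h1
  simp (disch := omega) only [if_neg, if_pos, zero_add, add_zero, if_true] at h1
  linarith

lemma c123 (h2 : (M w2).det = 0) :
    D3 (M w1) (M w2) (M w3) + D3 (M w1) (M w3) (M w2) + D3 (M w2) (M w1) (M w3) +
    D3 (M w2) (M w3) (M w1) + D3 (M w3) (M w1) (M w2) + D3 (M w3) (M w2) (M w1) = 0 := by
  have h1 := coef3 hdet h12 h23 h (w1 + w2 + w3)
  simp only [Fin.sum_univ_three, Matrix.cons_val_zero, Matrix.cons_val_one, Matrix.cons_val] at h1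
  rw [← D3_self] at h2
  rw [h2, ite_self] at h1
  simp (disch := omega) only [if_neg, if_pos, zero_add, add_zero, if_true] at h1
  linarith

lemma c113 (h2 : (M w2).det = 0)
    (h122 : D3 (M w1) (M w2) (M w2) + D3 (M w2) (M w1) (M w2) + D3 (M w2) (M w2) (M w1) = 0) :
    D3 (M w1) (M w1) (M w3) + D3 (M w1) (M w3) (M w1) + D3 (M w3) (M w1) (M w1) = 0 := by
  have h1 := coef3 hdet h12 h23 h (2 * w1 + w3)
  simp only [Fin.sum_univ_three, Matrix.cons_val_zero, Matrix.cons_val_one, Matrix.cons_val] at h1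
  rw [← D3_self] at h2
  rw [h2, ite_self] at h1
  by_cases hx : w1 + 2 * w2 = 2 * w1 + w3
  · simp (disch := omega) only [if_neg, if_pos, zero_add, add_zero, if_true] at h1
    linarith
  · simp (disch := omega) only [if_neg, if_pos, zero_add, add_zero, if_true] at h1
    linarith

end

/-- the mixed discriminant of a symmetric product and a symmetric matrix -/
lemma mix {A X : Matrix (Fin 3) (Fin 3) ℚ} {c : ℚ} {p q : Fin 3 → ℚ} (hA : Sy A c p q) (hX : X.IsSymm) :
    D3 A A X + D3 A X A + D3 X A A = - c ^ 2 * qv (crs p q) X := by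
  unfold D3 qv
  simp only [Matrix.det_fin_three, Fin.sum_univ_three, Matrix.of_apply, Matrix.cons_val_zero,
    Matrix.cons_val_one, Matrix.cons_val, hA _ _, crs]
  have h1 := hX.apply 0 1
  have h2 := hX.apply 0 2
  have h3 := hX.apply 1 2
  rw [h1, h2, h3]
  ring

lemma det_Sy {A : Matrix (Fin 3) (Fin 3) ℚ} {c : ℚ} {p q : Fin 3 → ℚ} (hA : Sy A c p q) : A.det = 0 := by
  simp only [Matrix.det_fin_three, hA _ _]
  ring

/-- the mixed discriminant of three symmetric products -/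
lemma mix3 {A B C : Matrix (Fin 3) (Fin 3) ℚ} {c1 c2 c3 : ℚ} {u v w : Fin 3 → ℚ} (hA : Sy A c1 v w)
    (hB : Sy B c2 u w) (hC : Sy C c3 u v) :
    D3 A B C + D3 A C B + D3 B A C + D3 B C A + D3 C A B + D3 C B A =
      2 * c1 * c2 * c3 * (dt3 u (crs v w)) ^ 2 := by
  unfold D3 dt3
  simp only [Matrix.det_fin_three, Matrix.of_apply, Matrix.cons_val_zero,
    Matrix.cons_val_one, Matrix.cons_val, hA _ _, hB _ _, hC _ _, crs]
  ring

end Pool.Agent.Y734.I.TRI
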