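import Mathlib
import Pool.Agent.Y734.I.TRI.Sum

/-!
# Project Y734/I, job TRI (helper93): three pairs of exponents
-/

set_option autoImplicit false

namespace Pool.Agent.Y734.I.TRI

open Pool.Agent.Y734.I
open MvPolynomial

variable {H : Fin 6 → Fin 3 → ℚ} {κ : Fin 6 → ℚ} {α : Fin 6 → ℤ} {M : ℤ → Matrix (Fin 3) (Fin 3) ℚ}

lemma Fm.g3 (hF : Fm H κ α M) {i j k : Fin 6} (h1 : i ≠ j) (h2 : i ≠ k) (h3 : j ≠ k) :
    dt3 (H i) (crs (H j) (H k)) ≠ 0 := dt3_ne (hF.gp i j k h1 h2 h3)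

lemma img (hT : Tri α) : Finset.univ.image α = Finset.univ.image ![α 0, α 2, α 4] := by
  ext x
  simp only [Finset.mem_image, Finset.mem_univ, true_and]
  constructor
  · rintro ⟨i, rfl⟩
    fin_cases i
    · exact ⟨0, rfl⟩
    · exact ⟨0, hT.h01⟩
    · exact ⟨1, rfl⟩
    · exact ⟨1, hT.h23⟩
    · exact ⟨2, rfl⟩
    · exact ⟨2, hT.h45⟩
  · rintro ⟨i, rfl⟩
    fin_cases i
    · exact ⟨0, rfl⟩
    · exact ⟨2, rfl⟩
    · exact ⟨4, rfl⟩

lemma hz (hF : Fm H κ α M) (hT : Tri α) :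
    ∀ z : ℚ, z ≠ 0 → (∑ x ∈ Finset.univ.image ![α 0, α 2, α 4], z ^ x • M x).det = 0 := by
  intro z h
  rw [← img hT]
  exact hF.det z h

lemma l02 (hT : Tri α) : α 0 < α 2 := by rw [hT.h01]; exact hT.h12
lemma l24 (hT : Tri α) : α 2 < α 4 := by rw [hT.h23]; exact hT.h34

lemma val0 (hF : Fm H κ α M) {w : ℤ} {i : Fin 6} (h : α i ≠ w) : bl (H i) (H i) (M w) = 0 := by
  rw [← qv_bl, hF.val, if_neg h]

lemma val1 (hF : Fm H κ α M) {w : ℤ} {i : Fin 6} (h : α i = w) : bl (H i) (H i) (M w) ≠ 0 := by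
  rw [← qv_bl, hF.val, if_pos h]
  exact hF.κ0 i

lemma crs_crs (a b c d : Fin 3 → ℚ) : crs (crs a b) (crs c d) =
    dt3 (crs a b) d • c - dt3 (crs a b) c • d := by
  funext i
  fin_cases i <;> simp [dt3, crs] <;> ring

/-- the middle matrix in the first case -/
lemma m2form (hdet : DetStmt) (hF : Fm H κ α M) (hT : Tri α) {c1 : ℚ} (hc1 : c1 ≠ 0)
    (h1 : Sy (M (α 0)) c1 (crs (H 2) (H 3)) (crs (H 4) (H 5))) :
    ∃ c2 : ℚ, c2 ≠ 0 ∧ Sy (M (α 2)) c2 (crs (H 0) (H 1)) (crs (H 4) (H 5)) := by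
  have hs := hF.symm (α 2)
  set M2 := M (α 2) with hM2
  have a1 := l02 hT
  have a2 := l24 hT
  have t01 := hT.h01
  have t23 := hT.h23
  have t45 := hT.h45
  have b44 : bl (H 4) (H 4) M2 = 0 := val0 hF (by omega)
  have b55 : bl (H 5) (H 5) M2 = 0 := val0 hF (by omega)
  have b00 : bl (H 0) (H 0) M2 = 0 := val0 hF (by omega)
  have b11 : bl (H 1) (H 1) M2 = 0 := val0 hF (by omega)
  have b22 : bl (H 2) (H 2) M2 ≠ 0 := val1 hF rfl
  have b45 : bl (H 4) (H 5) M2 = 0 := by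
    have e1 := c112 hdet a1 a2 (hz hF hT)
    rw [mix h1 hs] at e1
    have e2 : qv (crs (crs (H 2) (H 3)) (crs (H 4) (H 5))) M2 = 0 := by
      have h0 : -c1 ^ 2 ≠ 0 := neg_ne_zero.2 (pow_ne_zero 2 hc1)
      exact (mul_eq_zero.1 e1).resolve_left h0
    rw [qv_bl, crs_crs, bl_sub, bl_symm hs (H 4), bl_symm hs (H 5), bl_sub, bl_sub,
      bl_symm hs (H 5) (H 4), b44, b55] at e2
    have x0 : dt3 (crs (H 2) (H 3)) (H 5) ≠ 0 := by
      have : dt3 (crs (H 2) (H 3)) (H 5) = dt3 (H 5) (crs (H 2) (H 3)) := by simp [dt3]; ring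
      rw [this]
      exact Fm.g3 hF (by decide) (by decide) (by decide)
    have y0 : dt3 (crs (H 2) (H 3)) (H 4) ≠ 0 := by
      have : dt3 (crs (H 2) (H 3)) (H 4) = dt3 (H 4) (crs (H 2) (H 3)) := by simp [dt3]; ring
      rw [this]
      exact Fm.g3 hF (by decide) (by decide) (by decide)
    have e3 : (dt3 (crs (H 2) (H 3)) (H 5) * dt3 (crs (H 2) (H 3)) (H 4)) * bl (H 4) (H 5) M2 = 0 := by
      linarith
    exact (mul_eq_zero.1 e3).resolve_left (mul_ne_zero x0 y0)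
  set u := crs (H 0) (H 1) with hu
  set v := crs (H 4) (H 5) with hv
  have d4u : dt3 (H 4) u ≠ 0 := Fm.g3 hF (by decide) (by decide) (by decide)
  have d0v : dt3 (H 0) v ≠ 0 := Fm.g3 hF (by decide) (by decide) (by decide)
  have d0u : dt3 (H 0) u = 0 := dt3_left _ _
  have d1u : dt3 (H 1) u = 0 := dt3_right _ _
  have d4v : dt3 (H 4) v = 0 := dt3_left _ _
  have d5v : dt3 (H 5) v = 0 := dt3_right _ _
  set c2 : ℚ := bl (H 4) (H 0) M2 / (dt3 (H 4) u * dt3 (H 0) v) with hc2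
  set N : Matrix (Fin 3) (Fin 3) ℚ := Matrix.of fun j l => M2 j l - c2 * (u j * v l + v j * u l) with hN
  have hNs : N.IsSymm := by
    ext i j
    simp only [Matrix.transpose_apply, hN, Matrix.of_apply]
    rw [hs.apply i j]
    ring
  have hbN : ∀ a b : Fin 3 → ℚ, bl a b N = bl a b M2 - c2 * (dt3 a u * dt3 b v + dt3 a v * dt3 b u) := by
    intro a b
    unfold bl dt3
    simp only [Fin.sum_univ_three, hN, Matrix.of_apply]
    ring
  have n44 : bl (H 4) (H 4) N = 0 := by rw [hbN, b44, d4v]; ring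
  have n55 : bl (H 5) (H 5) N = 0 := by rw [hbN, b55, d5v]; ring
  have n00 : bl (H 0) (H 0) N = 0 := by rw [hbN, b00, d0u]; ring
  have n11 : bl (H 1) (H 1) N = 0 := by rw [hbN, b11, d1u]; ring
  have n45 : bl (H 4) (H 5) N = 0 := by rw [hbN, b45, d4v, d5v]; ring
  have n40 : bl (H 4) (H 0) N = 0 := by
    rw [hbN, d4v, hc2]
    field_simp
    ring
  have hD : dt3 (H 4) (crs (H 5) (H 0)) ≠ 0 := Fm.g3 hF (by decide) (by decide) (by decide)
  have n50 : bl (H 5) (H 0) N = 0 := by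
    have key : ∀ z, dt3 (H 4) (crs (H 5) (H 0)) * bl (H 1) z N =
        dt3 (H 1) (crs (H 5) (H 0)) * bl (H 4) z N + dt3 (H 1) (crs (H 0) (H 4)) * bl (H 5) z N +
          dt3 (H 1) (crs (H 4) (H 5)) * bl (H 0) z N := by
      intro z
      rw [← bl_smul, exp3, bl_add3]
    have k4 := key (H 4)
    have k5 := key (H 5)
    have k0 := key (H 0)
    have k1 := key (H 1)
    rw [n44, bl_symm hNs (H 5) (H 4), n45, bl_symm hNs (H 0) (H 4), n40] at k4
    rw [n45, n55, bl_symm hNs (H 0) (H 5)] at k5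
    rw [n40, n00] at k0
    rw [n11, bl_symm hNs (H 4) (H 1), bl_symm hNs (H 5) (H 1), bl_symm hNs (H 0) (H 1)] at k1
    have g1 : dt3 (H 1) (crs (H 0) (H 4)) ≠ 0 := Fm.g3 hF (by decide) (by decide) (by decide)
    have g2 : dt3 (H 1) (crs (H 4) (H 5)) ≠ 0 := Fm.g3 hF (by decide) (by decide) (by decide)
    have e : (2 * (dt3 (H 1) (crs (H 0) (H 4)) * dt3 (H 1) (crs (H 4) (H 5)))) * bl (H 5) (H 0) N = 0 := by
      linear_combination (-dt3 (H 4) (crs (H 5) (H 0))) * k1 - dt3 (H 1) (crs (H 5) (H 0)) * k4 -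
        dt3 (H 1) (crs (H 0) (H 4)) * k5 - dt3 (H 1) (crs (H 4) (H 5)) * k0
    exact (mul_eq_zero.1 e).resolve_left (mul_ne_zero two_ne_zero (mul_ne_zero g1 g2))
  have hN0 := zero_basis hNs hD n44 n55 n00 n45 n40 n50
  have hSy : Sy M2 c2 u v := by
    intro j l
    have := hN0 j l
    simp only [hN, Matrix.of_apply] at this
    linarith
  refine ⟨c2, ?_, hSy⟩
  intro h0
  apply b22
  rw [bl_Sy hSy, h0]
  ring

/-- the excluded case -/
lemma excl (hdet : DetStmt) (hF : Fm H κ α M) (hT : Tri α) {a b : Fin 6} (ha : a ≠ 0 ∧ a ≠ 1 ∧ a ≠ 4 ∧ a ≠ 5)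
    (hb : b ≠ 0 ∧ b ≠ 1 ∧ b ≠ 4 ∧ b ≠ 5) (hab : a ≠ b) {c1 c2 c3 : ℚ} (hc1 : c1 ≠ 0) (hc2 : c2 ≠ 0)
    (hc3 : c3 ≠ 0) (h1 : Sy (M (α 0)) c1 (crs (H a) (H b)) (crs (H 4) (H 5)))
    (h2 : Sy (M (α 2)) c2 (crs (H 0) (H 1)) (crs (H 4) (H 5)))
    (h3 : Sy (M (α 4)) c3 (crs (H 0) (H a)) (crs (H 1) (H b))) : False := by
  obtain ⟨a0, a1, a4, a5⟩ := ha
  obtain ⟨b0, b1, b4, b5⟩ := hb
  have i1 := l02 hT
  have i2 := l24 hT
  have e1 := c332 hdet i1 i2 (hz hF hT)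
  rw [mix h3 (hF.symm _)] at e1
  have e2 := (mul_eq_zero.1 e1).resolve_left (neg_ne_zero.2 (pow_ne_zero 2 hc3))
  rw [qv_bl, bl_Sy h2] at e2
  have e3 : dt3 (crs (crs (H 0) (H a)) (crs (H 1) (H b))) (crs (H 0) (H 1)) *
      dt3 (crs (crs (H 0) (H a)) (crs (H 1) (H b))) (crs (H 4) (H 5)) = 0 := by
    have : c2 * (2 * (dt3 (crs (crs (H 0) (H a)) (crs (H 1) (H b))) (crs (H 0) (H 1)) *
      dt3 (crs (crs (H 0) (H a)) (crs (H 1) (H b))) (crs (H 4) (H 5)))) = 0 := by linarith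
    have := (mul_eq_zero.1 this).resolve_left hc2
    linarith
  -- the first factor is not zero; the condition from the second is not needed below
  have e4 : D3 (M (α 0)) (M (α 2)) (M (α 2)) + D3 (M (α 2)) (M (α 0)) (M (α 2)) +
      D3 (M (α 2)) (M (α 2)) (M (α 0)) = 0 := by
    have e5 := mix h2 (hF.symm (α 0))
    rw [qv_bl, bl_Sy h1] at e5
    have e6 : dt3 (crs (crs (H 0) (H 1)) (crs (H 4) (H 5))) (crs (H 4) (H 5)) = 0 := by
      have := dt3_right (crs (H 0) (H 1)) (crs (H 4) (H 5))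
      have h' : dt3 (crs (crs (H 0) (H 1)) (crs (H 4) (H 5))) (crs (H 4) (H 5)) =
        dt3 (crs (H 4) (H 5)) (crs (crs (H 0) (H 1)) (crs (H 4) (H 5))) := by
        simp only [dt3]; ring
      rw [h', this]
    rw [e6] at e5
    linarith
  have e7 := c113 hdet i1 i2 (hz hF hT) (det_Sy h2) e4
  rw [mix h1 (hF.symm _)] at e7
  have e8 := (mul_eq_zero.1 e7).resolve_left (neg_ne_zero.2 (pow_ne_zero 2 hc1))
  rw [qv_bl, bl_Sy h3] at e8
  have f1 : dt3 (crs (crs (H a) (H b)) (crs (H 4) (H 5))) (crs (H 0) (H a)) =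
      dt3 (H a) (crs (H b) (H 0)) * dt3 (H a) (crs (H 4) (H 5)) := by
    simp [dt3, crs]; ring
  have f2 : dt3 (crs (crs (H a) (H b)) (crs (H 4) (H 5))) (crs (H 1) (H b)) =
      -(dt3 (H b) (crs (H a) (H 1)) * dt3 (H b) (crs (H 4) (H 5))) := by
    simp [dt3, crs]; ring
  rw [f1, f2] at e8
  have g1 := Fm.g3 hF hab a0 b0
  have g2 := Fm.g3 hF a4 a5 (show (4 : Fin 6) ≠ 5 by decide)
  have g3 := Fm.g3 hF (Ne.symm hab) b1 a1
  have g4 := Fm.g3 hF b4 b5 (show (4 : Fin 6) ≠ 5 by decide)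
  have e9 : c3 * (-2 * ((dt3 (H a) (crs (H b) (H 0)) * dt3 (H a) (crs (H 4) (H 5))) *
      (dt3 (H b) (crs (H a) (H 1)) * dt3 (H b) (crs (H 4) (H 5))))) = 0 := by linarith
  have e10 := (mul_eq_zero.1 e9).resolve_left hc3
  exact (mul_ne_zero (by norm_num) (mul_ne_zero (mul_ne_zero g1 g2) (mul_ne_zero g3 g4))) e10

/-- the case of a line -/
lemma line3 (hdet : DetStmt) (hF : Fm H κ α M) (hT : Tri α) {c1 c2 c3 : ℚ} (hc1 : c1 ≠ 0) (hc2 : c2 ≠ 0)
    (hc3 : c3 ≠ 0) (h1 : Sy (M (α 0)) c1 (crs (H 2) (H 3)) (crs (H 4) (H 5)))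
    (h2 : Sy (M (α 2)) c2 (crs (H 0) (H 1)) (crs (H 4) (H 5)))
    (h3 : Sy (M (α 4)) c3 (crs (H 0) (H 1)) (crs (H 2) (H 3))) : Cn H α M := by
  have i1 := l02 hT
  have i2 := l24 hT
  have e1 := c123 hdet i1 i2 (hz hF hT) (det_Sy h2)
  rw [mix3 h1 h2 h3] at e1
  have e2 : dt3 (crs (H 0) (H 1)) (crs (crs (H 2) (H 3)) (crs (H 4) (H 5))) = 0 := by
    have h0 : 2 * c1 * c2 * c3 ≠ 0 := mul_ne_zero (mul_ne_zero (mul_ne_zero two_ne_zero hc1) hc2) hc3
    exact pow_eq_zero_iff (two_ne_zero) |>.1 ((mul_eq_zero.1 e1).resolve_left h0)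
  set V : Fin 3 → Fin 3 → ℚ := ![crs (H 0) (H 1), crs (H 2) (H 3), crs (H 4) (H 5)] with hV
  obtain ⟨h, hh0, hh⟩ : ∃ h : Fin 3 → ℚ, h ≠ 0 ∧ ∀ c, dt3 h (V c) = 0 := by
    have hd : (Matrix.of V).det = 0 := by
      rw [← e2, Matrix.det_fin_three]
      simp [hV, dt3, crs]
      ring
    obtain ⟨h, hh0, hh⟩ := Matrix.exists_mulVec_eq_zero_iff.2 hd
    refine ⟨h, hh0, fun c => ?_⟩
    have := congrFun hh c
    simp only [Matrix.mulVec, dotProduct, Fin.sum_univ_three, Matrix.of_apply, Pi.zero_apply] at this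
    simp only [dt3]
    linarith
  set G : MvPolynomial (Fin 3) ℚ := ∑ j, C (h j) * X j with hG
  have hGx : ∀ x : Fin 3 → ℂ, aeval x G = dk (cx h) x := by
    intro x
    simp [hG, dk, cx, Fin.sum_univ_three]
  -- the pair of a line
  let pc : Fin 6 → Fin 3 := ![0, 0, 1, 1, 2, 2]
  have hpc : ∀ i, dt3 (H i) (V (pc i)) = 0 := by
    intro i
    fin_cases i
    · exact dt3_left _ _
    · exact dt3_right _ _
    · exact dt3_left _ _
    · exact dt3_right _ _
    · exact dt3_left _ _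
    · exact dt3_right _ _
  have hoth : ∀ i, ∃ c, dt3 (H i) (V c) ≠ 0 := by
    intro i
    fin_cases i
    · exact ⟨1, Fm.g3 hF (by decide) (by decide) (by decide)⟩
    · exact ⟨1, Fm.g3 hF (by decide) (by decide) (by decide)⟩
    · exact ⟨0, Fm.g3 hF (by decide) (by decide) (by decide)⟩
    · exact ⟨0, Fm.g3 hF (by decide) (by decide) (by decide)⟩
    · exact ⟨0, Fm.g3 hF (by decide) (by decide) (by decide)⟩
    · exact ⟨0, Fm.g3 hF (by decide) (by decide) (by decide)⟩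
  have hind : ∀ i, ck (cx h) (cx (H i)) ≠ 0 := by
    intro i h0
    rw [cx_ck] at h0
    have h4 : crs h (H i) = 0 := by
      by_contra hne
      exact cx_ne hne h0
    obtain ⟨c, hc⟩ := hoth i
    obtain ⟨j, hj⟩ := Function.ne_iff.1 hh0
    apply hc
    have q0 : h 1 * H i 2 - h 2 * H i 1 = 0 := congrFun h4 0
    have q1 : h 2 * H i 0 - h 0 * H i 2 = 0 := congrFun h4 1
    have q2 : h 0 * H i 1 - h 1 * H i 0 = 0 := congrFun h4 2
    have hc2 := hh c
    have hj' : h j ≠ 0 := hj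
    have : h j * dt3 (H i) (V c) = 0 := by
      unfold dt3 at hc2 ⊢
      fin_cases j
      · simp only [Fin.zero_eta, Fin.isValue]
        linear_combination (H i 0) * hc2 + (V c 1) * q2 - (V c 2) * q1
      · simp only [Fin.mk_one, Fin.isValue]
        linear_combination (H i 1) * hc2 - (V c 0) * q2 + (V c 2) * q0
      · simp only [Fin.reduceFinMk, Fin.isValue]
        linear_combination (H i 2) * hc2 + (V c 0) * q1 - (V c 1) * q0
    exact (mul_eq_zero.1 this).resolve_left hj'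
  have hV0 : ∀ c, V c ≠ 0 := by
    intro c h0
    fin_cases c
    · exact (Fm.g3 hF (i := 2) (j := 0) (k := 1) (by decide) (by decide) (by decide))
        (by have h5 : crs (H 0) (H 1) = 0 := h0
            rw [h5]; simp [dt3])
    · exact (Fm.g3 hF (i := 0) (j := 2) (k := 3) (by decide) (by decide) (by decide))
        (by have h5 : crs (H 2) (H 3) = 0 := h0
            rw [h5]; simp [dt3])
    · exact (Fm.g3 hF (i := 0) (j := 4) (k := 5) (by decide) (by decide) (by decide))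
        (by have h5 : crs (H 4) (H 5) = 0 := h0
            rw [h5]; simp [dt3])
  refine ⟨G, ⟨⟨1, Or.inl rfl, ?_⟩, ?_, ?_⟩, ?_⟩
  · rw [hG]
    apply IsHomogeneous.sum
    intro j _
    have := (isHomogeneous_C (Fin 3) (h j)).mul (isHomogeneous_X ℚ j)
    simpa using this
  · intro h0
    obtain ⟨j, hj⟩ := Function.ne_iff.1 hh0
    apply hj
    have h5 : eval (Pi.single j (1 : ℚ)) G = h j := by
      rw [hG]
      simp only [map_sum, map_mul, eval_C, eval_X]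
      rw [Finset.sum_eq_single j]
      · simp
      · intro b _ hb
        simp [Pi.single_eq_of_ne hb]
      · simp
    rw [← h5, h0]
    simp
  · intro p hp0 hpG hpi
    choose ix hix using hpi
    have hpar : ∀ k, ∃ t : ℂ, p k = t • cx (V (pc (ix k))) := by
      intro k
      have h5 : dk (cx h) (p k) = 0 := by rw [← hGx]; exact hpG k
      have h6 : dk (cx (H (ix k))) (p k) = 0 := by rw [← ev_eq]; exact hix k
      obtain ⟨s, hs⟩ := par (hind (ix k)) h5 h6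
      have h7 : dk (cx h) (cx (V (pc (ix k)))) = 0 := by rw [cx_dk, hh]; simp
      have h8 : dk (cx (H (ix k))) (cx (V (pc (ix k)))) = 0 := by rw [cx_dk, hpc]; simp
      obtain ⟨s', hs'⟩ := par (hind (ix k)) h7 h8
      have hs0 : s' ≠ 0 := by
        intro h9
        rw [h9, zero_smul] at hs'
        exact cx_ne (hV0 _) hs'
      refine ⟨s / s', ?_⟩
      rw [hs', hs, smul_smul, div_mul_cancel₀ _ hs0]
    obtain ⟨k, l, hkl, he⟩ := Fintype.exists_ne_map_eq_of_card_lt (fun k : Fin 5 => pc (ix k)) (by simp)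
    obtain ⟨t, ht⟩ := hpar k
    obtain ⟨t', ht'⟩ := hpar l
    have hne : t' ≠ 0 := by
      intro h9
      rw [h9, zero_smul] at ht'
      exact hp0 l ht'
    refine ⟨k, l, hkl, t / t', ?_⟩
    have he' : pc (ix k) = pc (ix l) := he
    rw [ht', ← he', ht, smul_smul, div_mul_cancel₀ _ hne]
  · rintro x ⟨hx0, x', hx'0, hxx⟩
    rw [hGx]
    have hsum : ∀ j l, ((M (α 0) j l + M (α 2) j l + M (α 4) j l : ℚ) : ℂ) = x j * x' l + x' j * x l := by
      intro j l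
      rw [← hxx j l, img hT, Finset.sum_image (fun _ _ _ _ h => inj3 hdet i1 i2 (hz hF hT) h)]
      simp [Fin.sum_univ_three, Matrix.add_apply]
    have hh' := hh
    have v0 : dk (cx h) (cx (V 0)) = 0 := by rw [cx_dk, hh]; simp
    have v1 : dk (cx h) (cx (V 1)) = 0 := by rw [cx_dk, hh]; simp
    have v2 : dk (cx h) (cx (V 2)) = 0 := by rw [cx_dk, hh]; simp
    set s := dk (cx h) x with hs
    set t := dk (cx h) x' with ht
    -- x (x' . h) + x' (x . h) = 0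
    have hlin : ∀ j, x j * t + x' j * s = 0 := by
      intro j
      have h5 : x j * t + x' j * s = (x j * x' 0 + x' j * x 0) * cx h 0 + (x j * x' 1 + x' j * x 1) * cx h 1 +
          (x j * x' 2 + x' j * x 2) * cx h 2 := by
        rw [hs, ht]; unfold dk; ring
      rw [h5, ← hsum, ← hsum, ← hsum]
      have h6 : ∀ l, M (α 0) j l = c1 * (V 1 j * V 2 l + V 2 j * V 1 l) := h1 j
      have h7 : ∀ l, M (α 2) j l = c2 * (V 0 j * V 2 l + V 2 j * V 0 l) := h2 j
      have h8 : ∀ l, M (α 4) j l = c3 * (V 0 j * V 1 l + V 1 j * V 0 l) := h3 j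
      simp only [h6, h7, h8]
      push_cast
      unfold dk at v0 v1 v2
      simp only [cx] at v0 v1 v2 ⊢
      linear_combination (c1 * (V 1 j : ℂ)) * v2 + (c1 * (V 2 j : ℂ)) * v1 + (c2 * (V 0 j : ℂ)) * v2 +
        (c2 * (V 2 j : ℂ)) * v0 + (c3 * (V 0 j : ℂ)) * v1 + (c3 * (V 1 j : ℂ)) * v0
    have hst : s * t = 0 := by
      have h5 : 2 * (s * t) = (x 0 * t + x' 0 * s) * cx h 0 + (x 1 * t + x' 1 * s) * cx h 1 +
          (x 2 * t + x' 2 * s) * cx h 2 := by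
        have e3 : s = cx h 0 * x 0 + cx h 1 * x 1 + cx h 2 * x 2 := rfl
        have e4 : t = cx h 0 * x' 0 + cx h 1 * x' 1 + cx h 2 * x' 2 := rfl
        linear_combination t * e3 + s * e4
      rw [hlin, hlin, hlin] at h5
      have h6 : (2 : ℂ) * (s * t) = 0 := by rw [h5]; ring
      exact (mul_eq_zero.1 h6).resolve_left (by norm_num)
    rcases mul_eq_zero.1 hst with h5 | h5
    · exact h5
    · by_contra hs0
      apply hx'0
      funext j
      have h6 := hlin j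
      rw [h5, mul_zero, zero_add] at h6
      exact (mul_eq_zero.1 h6).resolve_right hs0

end Pool.Agent.Y734.I.TRI
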