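import Mathlib
import Pool.Agent.Y734.I.TRI.Tri

/-!
# Project Y734/I, job TRI (helper93): three pairs of exponents, the theorem
-/

set_option autoImplicit false

namespace Pool.Agent.Y734.I.TRI

open Pool.Agent.Y734.I
open MvPolynomial

variable {H : Fin 6 → Fin 3 → ℚ} {κ : Fin 6 → ℚ} {α : Fin 6 → ℤ} {M : ℤ → Matrix (Fin 3) (Fin 3) ℚ}

lemma img_perm (s : Equiv.Perm (Fin 6)) : Finset.univ.image (α ∘ s) = Finset.univ.image α := by
  ext x
  simp only [Finset.mem_image, Finset.mem_univ, true_and, Function.comp]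
  constructor
  · rintro ⟨i, rfl⟩
    exact ⟨s i, rfl⟩
  · rintro ⟨i, rfl⟩
    exact ⟨s.symm i, by simp⟩

lemma Fm_perm (hF : Fm H κ α M) (s : Equiv.Perm (Fin 6)) : Fm (H ∘ s) (κ ∘ s) (α ∘ s) M := by
  refine ⟨hF.hq, ?_, fun i => hF.κ0 (s i), hF.symm, fun w i => hF.val w (s i), ?_⟩
  · intro i j k h1 h2 h3
    exact hF.gp (s i) (s j) (s k) (fun h => h1 (s.injective h)) (fun h => h2 (s.injective h))
      (fun h => h3 (s.injective h))
  · intro z h
    rw [img_perm]
    exact hF.det z h

lemma Cn_perm (s : Equiv.Perm (Fin 6)) (h : Cn (H ∘ s) (α ∘ s) M) : Cn H α M := by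
  obtain ⟨G, hG, hx⟩ := h
  refine ⟨G, ⟨hG.deg, hG.ne, ?_⟩, ?_⟩
  · intro p h1 h2 h3
    refine hG.at4 p h1 h2 fun k => ?_
    obtain ⟨i, hi⟩ := h3 k
    refine ⟨s.symm i, ?_⟩
    simpa using hi
  · rintro x ⟨hx0, x', hx', hxx⟩
    refine hx x ⟨hx0, x', hx', ?_⟩
    rw [img_perm]
    exact hxx

lemma img_neg : Finset.univ.image (fun i => -α i) = (Finset.univ.image α).image (fun x => -x) := by
  rw [Finset.image_image]
  rfl

lemma Fm_neg (hF : Fm H κ α M) : Fm H κ (fun i => -α i) (fun w => M (-w)) := by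
  refine ⟨hF.hq, hF.gp, hF.κ0, fun w => hF.symm (-w), fun w i => ?_, fun z hz => ?_⟩
  · rw [hF.val]
    by_cases h : α i = -w
    · rw [if_pos h, if_pos (by omega)]
    · rw [if_neg h, if_neg (by omega)]
  · rw [img_neg, Finset.sum_image (fun _ _ _ _ h => neg_injective h)]
    have h1 := hF.det z⁻¹ (inv_ne_zero hz)
    rw [← h1]
    congr 1
    refine Finset.sum_congr rfl fun x _ => ?_
    simp only [neg_neg]
    rw [zpow_neg, inv_zpow]

lemma Cn_neg (h : Cn H (fun i => -α i) (fun w => M (-w))) : Cn H α M := by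
  obtain ⟨G, hG, hx⟩ := h
  refine ⟨G, hG, ?_⟩
  rintro x ⟨hx0, x', hx', hxx⟩
  refine hx x ⟨hx0, x', hx', ?_⟩
  rw [img_neg, Finset.sum_image (fun _ _ _ _ h => neg_injective h)]
  simp only [neg_neg]
  exact hxx

lemma Sy.flip {A : Matrix (Fin 3) (Fin 3) ℚ} {c : ℚ} {u v : Fin 3 → ℚ} (h : Sy A c u v) : Sy A c v u := by
  intro j l
  rw [h j l]
  ring

lemma crs_neg (a b : Fin 3 → ℚ) : crs a b = -crs b a := by
  funext i
  fin_cases i <;> simp [crs] <;> ring

lemma Sy.neg_left {A : Matrix (Fin 3) (Fin 3) ℚ} {c : ℚ} {u v : Fin 3 → ℚ} (h : Sy A c (-u) v) :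
    Sy A (-c) u v := by
  intro j l
  rw [h j l]
  simp only [Pi.neg_apply]
  ring

lemma Sy.neg_both {A : Matrix (Fin 3) (Fin 3) ℚ} {c : ℚ} {u v : Fin 3 → ℚ} (h : Sy A c (-u) (-v)) :
    Sy A c u v := by
  intro j l
  rw [h j l]
  simp only [Pi.neg_apply]
  ring

/-- the first case is excluded unless the last pairing is the trivial one -/
lemma caseA (hdet : DetStmt) (hF : Fm H κ α M) (hT : Tri α) {c1 c3 : ℚ} (hc1 : c1 ≠ 0) (hc3 : c3 ≠ 0)
    (h1 : Sy (M (α 0)) c1 (crs (H 2) (H 3)) (crs (H 4) (H 5)))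
    (h3 : Sy (M (α 4)) c3 (crs (H 0) (H 2)) (crs (H 1) (H 3)) ∨
      Sy (M (α 4)) c3 (crs (H 0) (H 3)) (crs (H 1) (H 2))) : False := by
  obtain ⟨c2, hc2, h2⟩ := m2form hdet hF hT hc1 h1
  rcases h3 with h3 | h3
  · exact excl hdet hF hT (a := 2) (b := 3) (by decide) (by decide) (by decide) hc1 hc2 hc3 h1 h2 h3
  · refine excl hdet hF hT (a := 3) (b := 2) (by decide) (by decide) (by decide) (neg_ne_zero.2 hc1) hc2 hc3
      ?_ h2 h3
    apply Sy.neg_left
    rw [← crs_neg]
    exact h1

/-- the order reversing renumbering -/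
def rv : Equiv.Perm (Fin 6) where
  toFun := ![4, 5, 2, 3, 0, 1]
  invFun := ![4, 5, 2, 3, 0, 1]
  left_inv := by decide
  right_inv := by decide

/-- **Job TRI.** -/
theorem tri (hfac : FacStmt) (hdet : DetStmt) (hcon : ConStmt) : TriStmt := by
  intro H κ α M hF hT
  have a1 := l02 hT
  have a2 := l24 hT
  have t01 := hT.h01
  have t23 := hT.h23
  have t45 := hT.h45
  have hz' := hz hF hT
  obtain ⟨c1, hc1, p1⟩ := pairing hfac (hF.symm (α 0)) (det1 hdet a1 a2 hz') (e := H 0) (a := H 2)
    (b := H 3) (c := H 4) (d := H 5) (Fm.g3 hF (by decide) (by decide) (by decide))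
    (Fm.g3 hF (by decide) (by decide) (by decide)) (Fm.g3 hF (by decide) (by decide) (by decide))
    (Fm.g3 hF (by decide) (by decide) (by decide)) (val0 hF (by omega)) (val0 hF (by omega))
    (val0 hF (by omega)) (val0 hF (by omega)) (val1 hF rfl)
  obtain ⟨c3, hc3, p3⟩ := pairing hfac (hF.symm (α 4)) (det3 hdet a1 a2 hz') (e := H 4) (a := H 0)
    (b := H 1) (c := H 2) (d := H 3) (Fm.g3 hF (by decide) (by decide) (by decide))
    (Fm.g3 hF (by decide) (by decide) (by decide)) (Fm.g3 hF (by decide) (by decide) (by decide))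
    (Fm.g3 hF (by decide) (by decide) (by decide)) (val0 hF (by omega)) (val0 hF (by omega))
    (val0 hF (by omega)) (val0 hF (by omega)) (val1 hF rfl)
  rcases p1 with p1 | p1
  · rcases p3 with p3 | p3
    · obtain ⟨c2, hc2, p2⟩ := m2form hdet hF hT hc1 p1
      exact line3 hdet hF hT hc1 hc2 hc3 p1 p2 p3
    · exact (caseA hdet hF hT hc1 hc3 p1 p3).elim
  · rcases p3 with p3 | p3
    · -- the reversed family
      exfalso
      have hF' := Fm_neg (Fm_perm hF rv)
      have hT' : Tri (fun i => -(α ∘ rv) i) := by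
        refine ⟨?_, ?_, ?_, ?_, ?_⟩
        · show -α 4 = -α 5
          omega
        · show -α 5 < -α 2
          omega
        · show -α 2 = -α 3
          omega
        · show -α 3 < -α 0
          omega
        · show -α 0 = -α 1
          omega
      have q1 : Sy ((fun w => M (-w)) ((fun i => -(α ∘ rv) i) 0)) c3 (crs ((H ∘ rv) 2) ((H ∘ rv) 3))
          (crs ((H ∘ rv) 4) ((H ∘ rv) 5)) := by
        show Sy (M (- -α 4)) c3 (crs (H 2) (H 3)) (crs (H 0) (H 1))
        rw [neg_neg]
        exact Sy.flip p3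
      refine caseA hdet hF' hT' hc3 hc1 q1 ?_
      rcases p1 with p1 | p1
      · left
        show Sy (M (- -α 0)) c1 (crs (H 4) (H 2)) (crs (H 5) (H 3))
        rw [neg_neg]
        apply Sy.neg_both
        rw [← crs_neg, ← crs_neg]
        exact p1
      · right
        show Sy (M (- -α 0)) c1 (crs (H 4) (H 3)) (crs (H 5) (H 2))
        rw [neg_neg]
        apply Sy.neg_both
        rw [← crs_neg, ← crs_neg]
        exact Sy.flip p1
    · -- the case of a conic
      have conj : ∀ (s : Equiv.Perm (Fin 6)), Tri (α ∘ s) → M ((α ∘ s) 0) = M (α 0) →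
          M ((α ∘ s) 4) = M (α 4) →
          Sy (M (α 0)) c1 (crs (H (s 2)) (H (s 4))) (crs (H (s 3)) (H (s 5))) →
          Sy (M (α 4)) c3 (crs (H (s 0)) (H (s 2))) (crs (H (s 1)) (H (s 3))) → Cn H α M := by
        intro s hTs e0 e4 r1 r3
        refine Cn_perm s (hcon (H ∘ s) (κ ∘ s) (α ∘ s) M (Fm_perm hF s) hTs c1 c3 ?_ ?_)
        · rw [e0]
          exact r1
        · rw [e4]
          exact r3
      rcases p1 with p1 | p1 <;> rcases p3 with p3 | p3
      · exact conj (Equiv.refl _) hT rfl rfl p1 p3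
      · -- swap 0 and 1
        refine conj (Equiv.swap 0 1) ?_ ?_ ?_ ?_ ?_
        · refine ⟨?_, ?_, ?_, ?_, ?_⟩
          · show α 1 = α 0
            omega
          · show α 0 < α 2
            omega
          · show α 2 = α 3
            omega
          · show α 3 < α 4
            omega
          · show α 4 = α 5
            omega
        · show M (α 1) = M (α 0)
          rw [t01]
        · rfl
        · exact p1
        · exact Sy.flip p3
      · -- swap 4 and 5
        refine conj (Equiv.swap 4 5) ?_ ?_ ?_ ?_ ?_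
        · refine ⟨?_, ?_, ?_, ?_, ?_⟩
          · show α 0 = α 1
            omega
          · show α 1 < α 2
            omega
          · show α 2 = α 3
            omega
          · show α 3 < α 5
            omega
          · show α 5 = α 4
            omega
        · rfl
        · show M (α 5) = M (α 4)
          rw [t45]
        · exact p1
        · exact p3
      · refine conj ((Equiv.swap 4 5).trans (Equiv.swap 0 1)) ?_ ?_ ?_ ?_ ?_
        · refine ⟨?_, ?_, ?_, ?_, ?_⟩
          · show α 1 = α 0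
            omega
          · show α 0 < α 2
            omega
          · show α 2 = α 3
            omega
          · show α 3 < α 5
            omega
          · show α 5 = α 4
            omega
        · show M (α 1) = M (α 0)
          rw [t01]
        · show M (α 5) = M (α 4)
          rw [t45]
        · exact p1
        · exact Sy.flip p3

end Pool.Agent.Y734.I.TRI
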